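import Pool.Agent.helper64.NQ.Spec

/-! Row nq:FTW. -/

set_option autoImplicit false

namespace Pool.Agent.NQ

open Pool.Agent.helper58.DC Pool.Agent.DI Pool.Agent.DR

theorem FTW (hTWI : TWI_stmt) (hFINX : FINX_stmt) : FTW_stmt := by
  intro p _ M hM hpM 𝒳 hCl hO G E A _ _ _ _ _ X hE hP hPr hcyc hop χ hχ hPD d U
  have hfA : Finite A := Finite.of_surjective X.proj X.proj_surjective
  have hC : ∀ (B : Type) [Group B] [Finite B], IsCyclic B → InvX p M 𝒳 B := fun B _ _ hB =>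
    ((hFINX p M hM hpM 𝒳 hCl).1.1 hO) B (Or.inl hB)
  refine hTWI p M hM hpM 𝒳 hCl hC (fun r => r.Prime ∧ r ≠ p ∧ ¬ r ∣ Nat.card G)
    (fun r hr => ⟨hr.1, hr.2.1⟩) G E A X hE ?_ hPr (fun r hr => hr.2.2) hop χ hχ hPD d U
  obtain ⟨P, hPp, hQ⟩ := hP
  refine ⟨hfA, P, hPp, hQ, fun r hr hrp hnr R => ?_⟩
  by_cases hd : r ∣ Nat.card G
  · exact hcyc r hr hrp hd R
  · exact absurd ⟨hr, hrp, hd⟩ hnr

end Pool.Agent.NQ
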